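import Mathlib

namespace Pool.Agent.Results.MP_5491e1_lc.No

/-- A preference profile of `n` voters over `m` candidates: `rank i c` is the position
(starting from `0`) of candidate `c` in the strict ranking of voter `i`, and `top i` is the
candidate in position `0`. -/
structure Profile (n m : ℕ) where
  rank : Fin n → Fin m → Fin m
  bij : ∀ i, Function.Bijective (rank i)
  top : Fin n → Fin m
  top_spec : ∀ i, (rank i (top i)).val = 0

/-- `(i, j)` is an edge of `G_k(a)`: `top j = a`, or `a` is among the `k` highest candidates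
of `i` and `i` does not rank `top j` above `a`. -/
def Edge {n m : ℕ} (P : Profile n m) (k : ℕ) (a : Fin m) (i j : Fin n) : Prop :=
  P.top j = a ∨ ((P.rank i a).val < k ∧ ¬ P.rank i (P.top j) < P.rank i a)

/-- `G_k(a)` has a perfect matching on `S`. -/
def HasPM {n m : ℕ} (P : Profile n m) (k : ℕ) (a : Fin m) (S : Finset (Fin n)) : Prop :=
  ∃ M : S ≃ S, ∀ i : S, Edge P k a i (M i)

def ty : Fin 8 → Fin 3 := ![0, 0, 0, 1, 1, 2, 2, 2]

def rk : Fin 3 → Fin 9 → Fin 9 :=
  ![![0, 1, 2, 7, 8, 3, 4, 5, 6], ![7, 0, 8, 5, 6, 1, 2, 3, 4], ![7, 8, 0, 5, 6, 1, 2, 3, 4]]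

def tp : Fin 3 → Fin 9 := ![0, 1, 2]

def P0 : Profile 8 9 where
  rank i := rk (ty i)
  bij := by
    intro i
    rw [← Finite.injective_iff_bijective]
    revert i
    unfold Function.Injective
    decide
  top i := tp (ty i)
  top_spec := by decide

def pot (a : Fin 9) : Fin 3 → ℤ :=
  if a = 0 then ![0, 1, 1] else if a = 1 then ![2, 0, 1] else if a = 2 then ![1, 1, 0]
  else ![1, 1, 2]

def cost (a : Fin 9) : Fin 3 → ℤ :=
  if a = 0 then ![2, 0, 0] else if a = 1 then ![0, 3, 0] else if a = 2 then ![0, 0, 2]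
  else ![0, 2, 0]

theorem key : ∀ (a : Fin 9) (s t : Fin 3),
    (tp t = a ∨ ((rk s a).val < 7 ∧ ¬ rk s (tp t) < rk s a)) →
      1 + pot a t - pot a s ≤ cost a s := by decide

theorem nonneg : ∀ (a : Fin 9) (s : Fin 3), 0 ≤ cost a s := by decide

theorem total : ∀ a : Fin 9, ∑ i : Fin 8, cost a (ty i) ≤ 6 := by decide

theorem bound (a : Fin 9) (S : Finset (Fin 8)) (h : HasPM P0 7 a S) : S.card ≤ 6 := by
  obtain ⟨M, hM⟩ := h
  have h1 : ∑ i : S, (1 + pot a (ty (M i)) - pot a (ty i)) ≤ ∑ i : S, cost a (ty i) :=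
    Finset.sum_le_sum fun i _ => key a _ _ (hM i)
  have h2 : ∑ i : S, pot a (ty (M i)) = ∑ i : S, pot a (ty i) :=
    Equiv.sum_comp M (fun i : S => pot a (ty i))
  rw [Finset.sum_sub_distrib, Finset.sum_add_distrib, h2] at h1
  have h3 : ∑ i : S, cost a (ty i) ≤ ∑ i : Fin 8, cost a (ty i) := by
    rw [Finset.sum_coe_sort S (fun i => cost a (ty i))]
    exact Finset.sum_le_sum_of_subset_of_nonneg (Finset.subset_univ _) fun i _ _ => nonneg a _
  have h4 := total a
  simp only [Finset.sum_const, Finset.card_univ, Fintype.card_coe, nsmul_eq_mul, mul_one] at h1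
  have : (S.card : ℤ) ≤ 6 := by linarith
  exact_mod_cast this

theorem result :
    ¬ ∀ (n m k : ℕ), 1 ≤ n → 1 ≤ m → 1 ≤ k → k ≤ m → ∀ P : Profile n m,
      ∃ (a : Fin m) (S : Finset (Fin n)), (n : ℚ) * k / m ≤ S.card ∧ HasPM P k a S := by
  intro H
  obtain ⟨a, S, h1, h2⟩ := H 8 9 7 (by norm_num) (by norm_num) (by norm_num) (by norm_num) P0
  have h3 : (S.card : ℚ) ≤ 6 := by exact_mod_cast bound a S h2
  norm_num at h1
  linarith

end Pool.Agent.Results.MP_5491e1_lc.No
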